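import Pool.Agent.H.MP_9fae52_an.A

set_option autoImplicit false

namespace Pool.Agent.Results.MP_9fae52_an.No
open Set Real

def Admissible (θ : ℝ) : Prop :=
  ∃ s t : ℝ → ℝ, ContinuousOn s (Icc 0 1) ∧ ContinuousOn t (Icc 0 1) ∧ MonotoneOn s (Icc 0 1) ∧
    MonotoneOn t (Icc 0 1) ∧ s 0 = 0 ∧ t 0 = 0 ∧ s 1 = 1 ∧ t 1 = 1 ∧ ∀ x ∈ Icc (0 : ℝ) 1,
      dist (AffineMap.lineMap (!₂[0, 0, 0] : EuclideanSpace ℝ (Fin 3)) !₂[0, cos θ, 2 - sin θ] (s x))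
        (AffineMap.lineMap (!₂[1, cos θ, sin θ] : EuclideanSpace ℝ (Fin 3)) !₂[1, 0, 2] (t x)) = √2

noncomputable def costM (A₁ B₁ A₂ B₂ C₁ C₂ : EuclideanSpace ℝ (Fin 3)) : ℝ :=
  √2 * EuclideanGeometry.angle B₁ A₁ C₁ + dist C₁ B₂ + dist A₁ C₂ + √2 * EuclideanGeometry.angle C₂ B₂ A₂

theorem result :
    (∃ A B : ℝ → EuclideanSpace ℝ (Fin 3), Continuous A ∧ Continuous B ∧ (∀ t, dist (A t) (B t) = √2) ∧
      A 0 = !₂[0, 0, 0] ∧ B 0 = !₂[1, 1, 0] ∧ A 1 = !₂[0, 1, 2] ∧ B 1 = !₂[1, 0, 2] ∧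
      eVariationOn A (Icc 0 1) + eVariationOn B (Icc 0 1) ≤ ENNReal.ofReal 4.492) ∧
    ∀ θ : ℝ, Admissible θ → 4.4925 ≤ costM !₂[0, 0, 0] !₂[1, 1, 0] !₂[0, 1, 2] !₂[1, 0, 2]
      !₂[1, cos θ, sin θ] !₂[0, cos θ, 2 - sin θ] := by
  open Pool.Agent.H.MP_9fae52_an in
  refine ⟨up, fun θ ⟨s, t, a, b, c, d, e, f, g, h, i⟩ => ?_⟩
  have k := sin_sq_add_cos_sq θ
  have hσ := adm k a b c d e f g h i
  have h1 := low k hσ (EuclideanGeometry.angle_nonneg _ _ _) (EuclideanGeometry.angle_le_pi _ _ _)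
    ((ang 1 1 0 0 0 0 1 (cos θ) (sin θ) (by norm_num) (by linarith)).trans (by ring))
  have h2 := low k hσ (EuclideanGeometry.angle_nonneg _ _ _) (EuclideanGeometry.angle_le_pi _ _ _)
    ((ang 0 (cos θ) (2 - sin θ) 1 0 2 0 1 2 (by linarith) (by norm_num)).trans (by ring))
  rw [costM, dP, dP, show (1 - 1) ^ 2 + (cos θ - 0) ^ 2 + (sin θ - 2) ^ 2 = 5 - 4 * sin θ by linarith,
    show (0 - 0) ^ 2 + (0 - cos θ) ^ 2 + (0 - (2 - sin θ)) ^ 2 = 5 - 4 * sin θ by linarith]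
  linarith

end Pool.Agent.Results.MP_9fae52_an.No
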